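import Pool.Agent.Helper64.Rig.Basics

/-!
# Packet LinB (MP_148db9_ag)
-/

namespace Pool.Agent.Helper11.Rig

open MvPolynomial Module Pool.Agent.Helper64.Rig

/-- The product of the four linear forms other than the `k`-th. -/
noncomputable def Hp (ζ : ℂ) (i : Fin 3) (k : Fin 5) : MvPolynomial (Fin 3) ℂ :=
  ∏ k' ∈ Finset.univ.erase k, (X (i + 1) + C (ζ ^ (k' : ℕ)) * X (i + 2))

/-- The form `T_i`. -/
noncomputable def TT (ζ : ℂ) (L : Jx → Fin 3 → ℂ) (i : Fin 3) : MvPolynomial (Fin 3) ℂ :=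
  ∑ k, Hp ζ i k * ∑ a, C (L (i, k) a) * X a

theorem Hp_homog (ζ : ℂ) (i : Fin 3) (k : Fin 5) : (Hp ζ i k).IsHomogeneous 4 := by
  unfold Hp
  have h := IsHomogeneous.prod (Finset.univ.erase k)
    (fun k' : Fin 5 => (X (i + 1) + C (ζ ^ (k' : ℕ)) * X (i + 2) : MvPolynomial (Fin 3) ℂ))
    (fun _ => 1) (fun k' _ => (isHomogeneous_X ℂ (i + 1)).add
      (by simpa using (isHomogeneous_C (Fin 3) (ζ ^ (k' : ℕ))).mul (isHomogeneous_X ℂ (i + 2))))
  have hc : (Finset.univ.erase k).card = 4 := by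
    rw [Finset.card_erase_of_mem (Finset.mem_univ _)]; rfl
  rw [Finset.sum_const, hc] at h
  simpa using h

theorem TT_homog (ζ : ℂ) (L : Jx → Fin 3 → ℂ) (i : Fin 3) : (TT ζ L i).IsHomogeneous 5 := by
  unfold TT
  refine IsHomogeneous.sum _ _ _ fun k _ => ?_
  have h1 : (∑ a, C (L (i, k) a) * X a : MvPolynomial (Fin 3) ℂ).IsHomogeneous 1 :=
    IsHomogeneous.sum _ _ _ fun a _ => by
      simpa using (isHomogeneous_C (Fin 3) (L (i, k) a)).mul (isHomogeneous_X ℂ a)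
  exact (Hp_homog ζ i k).mul h1

theorem FF_homog : (FF).IsHomogeneous 5 := by
  unfold FF
  exact IsHomogeneous.sum _ _ _ fun a _ => by simpa using (isHomogeneous_X ℂ a).pow 5

theorem FF_ne : FF ≠ 0 := by
  intro h
  have := congrArg (eval ![1, 0, 0]) h
  simp [FF, Fin.sum_univ_three] at this

theorem degOf_Hp (ζ : ℂ) (i : Fin 3) (k : Fin 5) : degreeOf i (Hp ζ i k) ≤ 0 := by
  unfold Hp
  refine (degreeOf_prod_le _ _ _).trans ?_
  rw [Nat.le_zero, Finset.sum_eq_zero_iff]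
  intro k' _
  rw [← Nat.le_zero]
  refine (degreeOf_add_le _ _ _).trans (max_le ?_ ?_)
  · rw [degreeOf_X, if_neg]
    revert i; decide
  · refine (degreeOf_C_mul_le _ _ _).trans ?_
    rw [degreeOf_X, if_neg]
    revert i; decide

theorem degOf_TT (ζ : ℂ) (L : Jx → Fin 3 → ℂ) (i : Fin 3) : degreeOf i (TT ζ L i) ≤ 1 := by
  unfold TT
  refine (degreeOf_sum_le _ _ _).trans (Finset.sup_le fun k _ => ?_)
  refine (degreeOf_mul_le _ _ _).trans ?_
  have h1 := degOf_Hp ζ i k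
  have h2 : degreeOf i (∑ a, C (L (i, k) a) * X a : MvPolynomial (Fin 3) ℂ) ≤ 1 := by
    refine (degreeOf_sum_le _ _ _).trans (Finset.sup_le fun a _ => ?_)
    refine (degreeOf_C_mul_le _ _ _).trans ?_
    rw [degreeOf_X]
    split_ifs <;> simp
  omega

theorem coeff_TT (ζ : ℂ) (L : Jx → Fin 3 → ℂ) (i : Fin 3) (m : Fin 3 →₀ ℕ) (hm : 2 ≤ m i) :
    coeff m (TT ζ L i) = 0 := by
  by_contra h
  have h1 := degreeOf_le_iff.1 (degOf_TT ζ L i) m (mem_support_iff.2 h)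
  omega

/-- A homogeneous polynomial of degree `5` which is a multiple of `FF` is a constant multiple. -/
theorem const_of_dvd {G : MvPolynomial (Fin 3) ℂ} (hG : G.IsHomogeneous 5) (h : FF ∣ G) :
    ∃ c : ℂ, G = FF * C c := by
  obtain ⟨M, rfl⟩ := h
  by_cases h0 : M = 0
  · exact ⟨0, by simp [h0]⟩
  · have h1 : totalDegree (FF * M) = totalDegree FF + totalDegree M :=
      totalDegree_mul_of_isDomain FF_ne h0
    have h2 : totalDegree (FF * M) = 5 := hG.totalDegree (mul_ne_zero FF_ne h0)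
    have h3 : totalDegree FF = 5 := FF_homog.totalDegree FF_ne
    have h4 : totalDegree M = 0 := by omega
    rw [totalDegree_eq_zero_iff_eq_C] at h4
    exact ⟨coeff 0 M, by rw [← h4]⟩

theorem coeff_FF (m : Fin 3 →₀ ℕ) (hm : ∀ a, m ≠ Finsupp.single a 5) : coeff m FF = 0 := by
  unfold FF
  rw [coeff_sum]
  refine Finset.sum_eq_zero fun a _ => ?_
  rw [coeff_X_pow, if_neg]
  exact fun h => hm a h.symm

theorem coeff_FF_single (a : Fin 3) : coeff (Finsupp.single a 5) FF = 1 := by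
  unfold FF
  rw [coeff_sum, Finset.sum_eq_single a]
  · rw [coeff_X_pow, if_pos rfl]
  · intro b _ hb
    rw [coeff_X_pow, if_neg]
    intro h
    exact hb (Finsupp.single_left_injective (by norm_num) h)
  · simp

/-- The structure of the forms `T_i`. -/
theorem TT_eq (ζ : ℂ) (L : Jx → Fin 3 → ℂ) (h : ∀ i, FF ∣ TT ζ L i - TT ζ L 0) :
    ∃ τ : Fin 3 → ℂ, ∀ i, TT ζ L i = ∑ a, C (τ a - τ i) * X a ^ 5 := by
  have h1 : ∀ i, ∃ c : ℂ, TT ζ L i - TT ζ L 0 = FF * C c := fun i =>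
    const_of_dvd ((TT_homog ζ L i).sub (TT_homog ζ L 0)) (h i)
  choose c hc using h1
  have hc' : ∀ i, TT ζ L i = TT ζ L 0 + FF * C (c i) := fun i => by
    rw [← hc i]; ring
  have hcoef : ∀ (i : Fin 3) (m : Fin 3 →₀ ℕ), coeff m (TT ζ L i) =
      coeff m (TT ζ L 0) + coeff m FF * c i := fun i m => by
    rw [hc' i, coeff_add, mul_comm FF, coeff_C_mul, mul_comm (c i)]
  have hc0 : c 0 = 0 := by
    have := hcoef 0 (Finsupp.single 0 5)
    rw [coeff_FF_single] at this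
    linear_combination -this
  have hsing : ∀ a, coeff (Finsupp.single a 5) (TT ζ L 0) = -c a := fun a => by
    have h2 := hcoef a (Finsupp.single a 5)
    rw [coeff_TT ζ L a _ (by simp), coeff_FF_single] at h2
    linear_combination -h2
  refine ⟨fun a => -c a, fun i => ?_⟩
  ext m
  rw [hcoef i m, coeff_sum]
  simp only [coeff_C_mul, coeff_X_pow]
  by_cases hm : ∃ a, m = Finsupp.single a 5
  · obtain ⟨a, rfl⟩ := hm
    rw [coeff_FF_single, hsing a, Finset.sum_eq_single a]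
    · rw [if_pos rfl]; ring
    · intro b _ hb
      rw [if_neg, mul_zero]
      intro h
      exact hb (Finsupp.single_left_injective (by norm_num) h)
    · simp
  · push Not at hm
    rw [coeff_FF m hm, Finset.sum_eq_zero (fun a _ => by
      rw [if_neg (fun h => hm a h.symm), mul_zero]), zero_mul, add_zero]
    by_contra h0
    have hd := degree_of_homog (TT_homog ζ L 0) h0
    rw [Finsupp.degree_eq_sum, Fin.sum_univ_three] at hd
    have h2 : ∃ a, 2 ≤ m a := by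
      by_contra hcon
      push Not at hcon
      have := hcon 0; have := hcon 1; have := hcon 2
      omega
    obtain ⟨a, ha⟩ := h2
    have h3 := hcoef a m
    rw [coeff_TT ζ L a m ha, coeff_FF m hm, zero_mul, add_zero] at h3
    exact h0 h3.symm

/-! ## Evaluations -/

theorem eval_Hp (ζ : ℂ) (i : Fin 3) (k : Fin 5) (v : Fin 3 → ℂ) :
    eval v (Hp ζ i k) = ∏ k' ∈ Finset.univ.erase k, (v (i + 1) + ζ ^ (k' : ℕ) * v (i + 2)) := by
  unfold Hp
  rw [eval_prod]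
  simp

theorem eval_TT (ζ : ℂ) (L : Jx → Fin 3 → ℂ) (i : Fin 3) (v : Fin 3 → ℂ) :
    eval v (TT ζ L i) = ∑ k : Fin 5,
      (∏ k' ∈ Finset.univ.erase k, (v (i + 1) + ζ ^ (k' : ℕ) * v (i + 2))) *
      ∑ a, L (i, k) a * v a := by
  unfold TT
  rw [eval_sum]
  refine Finset.sum_congr rfl fun k _ => ?_
  rw [map_mul, eval_Hp, eval_sum]
  simp

theorem prod_erase_ite (k : Fin 5) (f : Fin 5 → ℂ) : ∏ k' ∈ Finset.univ.erase k, f k' =
      ∏ k' : Fin 5, if k' = k then 1 else f k' := by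
  rw [← Finset.mul_prod_erase Finset.univ _ (Finset.mem_univ k), if_pos rfl, one_mul]
  exact Finset.prod_congr rfl fun k' hk' => by rw [if_neg (Finset.ne_of_mem_erase hk')]

/-- `∏ k' ≠ k, (ζ^k' - ζ^k) = 5 ζ^{4k}`. -/
theorem prod_sub (ζ : ℂ) (hζ : IsPrimitiveRoot ζ 5) (k : Fin 5) :
    ∏ k' ∈ Finset.univ.erase k, (-ζ ^ (k : ℕ) + ζ ^ (k' : ℕ) * 1) = 5 * ζ ^ (4 * (k : ℕ)) := by
  have h1 : (1 : ℂ) + ζ + ζ ^ 2 + ζ ^ 3 + ζ ^ 4 = 0 := by
    have := hζ.geom_sum_eq_zero (by norm_num)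
    simpa [Finset.sum_range_succ] using this
  have e3 : ((3 : Fin 5) : ℕ) = 3 := rfl
  have e4 : ((4 : Fin 5) : ℕ) = 4 := rfl
  rw [prod_erase_ite, Fin.prod_univ_five]
  simp only [Fin.val_zero, Fin.val_one, Fin.val_two, e3, e4]
  fin_cases k
  · simp only [Fin.zero_eta]
    norm_num [Fin.ext_iff]
    linear_combination ((-4) * ζ ^ 0 + (3) * ζ ^ 1 + (1) * ζ ^ 3 + (-2) * ζ ^ 5 + (1) * ζ ^ 6) * h1
  · simp only [Fin.mk_one]
    norm_num [Fin.ext_iff]
    linear_combination ((-1) * ζ ^ 3 + (-2) * ζ ^ 4 + (3) * ζ ^ 5 + (-1) * ζ ^ 6) * h1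
  · simp only [Fin.reduceFinMk]
    norm_num [Fin.ext_iff]
    linear_combination ((1) * ζ ^ 5 + (-3) * ζ ^ 6 + (1) * ζ ^ 7) * h1
  · simp only [Fin.reduceFinMk]
    norm_num [Fin.ext_iff]
    linear_combination ((-1) * ζ ^ 6 + (3) * ζ ^ 7 + (-2) * ζ ^ 8 + (-1) * ζ ^ 9) * h1
  · simp only [Fin.reduceFinMk]
    norm_num [Fin.ext_iff]
    linear_combination ((1) * ζ ^ 6 + (-2) * ζ ^ 7 + (1) * ζ ^ 9 + (3) * ζ ^ 11 + (-4) * ζ ^ 12) * h1

/-- The coefficients of the linear forms. -/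
theorem coef_rel (ζ : ℂ) (hζ : IsPrimitiveRoot ζ 5) (L : Jx → Fin 3 → ℂ) (τ : Fin 3 → ℂ)
    (h : ∀ i, TT ζ L i = ∑ a, C (τ a - τ i) * X a ^ 5) (i : Fin 3) :
    (∀ k, L (i, k) i = 0) ∧
    (∀ k, L (i, k) (i + 2) - ζ ^ (k : ℕ) * L (i, k) (i + 1) =
      ζ ^ (k : ℕ) * (τ (i + 2) - τ (i + 1)) / 5) ∧
    ∑ k, L (i, k) (i + 1) = τ (i + 1) - τ i := by
  have h5 : ζ ^ 5 = 1 := hζ.pow_eq_one
  have n1 : i + 1 ≠ i := (by decide : ∀ i : Fin 3, i + 1 ≠ i) i
  have n2 : i + 2 ≠ i := (by decide : ∀ i : Fin 3, i + 2 ≠ i) i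
  have n3 : i + 2 ≠ i + 1 := (by decide : ∀ i : Fin 3, i + 2 ≠ i + 1) i
  have hsum : ∀ f : Fin 3 → ℂ, ∑ a, f a = f i + f (i + 1) + f (i + 2) := by
    intro f
    rw [Fin.sum_univ_three]
    fin_cases i
    · rfl
    · show f 0 + f 1 + f 2 = f 1 + f (1 + 1) + f (1 + 2)
      rw [show (1 + 1 : Fin 3) = 2 from rfl, show (1 + 2 : Fin 3) = 0 from rfl]; ring
    · show f 0 + f 1 + f 2 = f 2 + f (2 + 1) + f (2 + 2)
      rw [show (2 + 1 : Fin 3) = 0 from rfl, show (2 + 2 : Fin 3) = 1 from rfl]; ring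
  -- the general evaluation
  have hev : ∀ y z w : ℂ, ∑ k : Fin 5,
      (∏ k' ∈ Finset.univ.erase k, (z + ζ ^ (k' : ℕ) * w)) *
      (L (i, k) i * y + L (i, k) (i + 1) * z + L (i, k) (i + 2) * w) =
      (τ (i + 1) - τ i) * z ^ 5 + (τ (i + 2) - τ i) * w ^ 5 := by
    intro y z w
    have h1 := congrArg (eval (fun a => if a = i then y else if a = i + 1 then z else w)) (h i)
    rw [eval_TT, eval_sum] at h1
    simp only [hsum, if_neg n1, if_neg n2, if_neg n3, if_true, map_mul, map_pow, eval_C, eval_X,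
      sub_self, zero_mul, zero_add] at h1
    exact h1
  have hk : ∀ (k : Fin 5) (y : ℂ), 5 * ζ ^ (4 * (k : ℕ)) *
      (L (i, k) i * y + L (i, k) (i + 1) * (-ζ ^ (k : ℕ)) + L (i, k) (i + 2) * 1) =
      τ (i + 2) - τ (i + 1) := by
    intro k y
    have h1 := hev y (-ζ ^ (k : ℕ)) 1
    rw [Finset.sum_eq_single k] at h1
    · rw [prod_sub ζ hζ k] at h1
      rw [h1]
      have : (-ζ ^ (k : ℕ)) ^ 5 = -1 := by
        rw [neg_pow, ← pow_mul, mul_comm, mul_comm (k : ℕ), pow_mul, h5]; norm_num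
      rw [this]; ring
    · intro k' _ hk'
      rw [Finset.prod_eq_zero (i := k) (Finset.mem_erase.2 ⟨hk'.symm, Finset.mem_univ _⟩) (by ring),
        zero_mul]
    · simp
  have hz0 : ζ ≠ 0 := hζ.ne_zero (by norm_num)
  refine ⟨fun k => ?_, fun k => ?_, ?_⟩
  · have h1 := hk k 1
    have h2 := hk k 0
    have h3 : 5 * ζ ^ (4 * (k : ℕ)) * L (i, k) i = 0 := by linear_combination h1 - h2
    have h4 : (5 * ζ ^ (4 * (k : ℕ)) : ℂ) ≠ 0 := mul_ne_zero (by norm_num) (pow_ne_zero _ hz0)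
    exact (mul_eq_zero.1 h3).resolve_left h4
  · have h2 := hk k 0
    have h3 : ζ ^ (4 * (k : ℕ)) * ζ ^ (k : ℕ) = 1 := by
      rw [← pow_add, show 4 * (k : ℕ) + k = 5 * k by ring, pow_mul, h5, one_pow]
    linear_combination (ζ ^ (k : ℕ) / 5) * h2 -
      (L (i, k) (i + 2) - ζ ^ (k : ℕ) * L (i, k) (i + 1)) * h3
  · have h1 := hev 0 1 0
    simp only [mul_zero, mul_one, add_zero, zero_add, Finset.prod_const_one, one_mul, one_pow] at h1
    rw [h1]; ring

/-! ## The derivation -/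

/-- The diagonal derivation. -/
noncomputable def DD (s : Jx → ℂ) : Derivation ℂ (MvPolynomial Jx ℂ) (MvPolynomial Jx ℂ) :=
  mkDerivation ℂ fun j => C (s j) * X j

theorem dsum_apply {ι : Type} (t : Finset ι)
    (D : ι → Derivation ℂ (MvPolynomial Jx ℂ) (MvPolynomial Jx ℂ)) (G : MvPolynomial Jx ℂ) :
    (∑ i ∈ t, D i) G = ∑ i ∈ t, D i G := by
  classical
  induction t using Finset.induction_on with
  | empty => simp
  | insert a t ha ih => rw [Finset.sum_insert ha, Finset.sum_insert ha, Derivation.add_apply, ih]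

theorem der_diagonal (s : Jx → ℂ) (G : MvPolynomial Jx ℂ) :
    der (Matrix.diagonal s) G = DD s G := by
  have h1 : DD s = ∑ i : Jx, (C (s i) * X i : MvPolynomial Jx ℂ) •
      (pderiv i : Derivation ℂ (MvPolynomial Jx ℂ) (MvPolynomial Jx ℂ)) := by
    apply derivation_ext
    intro j
    unfold DD
    rw [mkDerivation_X, dsum_apply, Finset.sum_eq_single j]
    · simp
    · intro b _ hb
      simp [pderiv_X, hb]
    · simp
  rw [h1, dsum_apply]
  unfold der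
  refine Finset.sum_congr rfl fun i _ => ?_
  rw [Finset.sum_eq_single i]
  · simp
  · intro b _ hb
    rw [Matrix.diagonal_apply_ne _ hb.symm]
    simp
  · simp

theorem DD_X (s : Jx → ℂ) (j : Jx) : DD s (X j) = C (s j) * X j := mkDerivation_X _ _ _

theorem DD_pr (s : Jx → ℂ) (i : Fin 3) : DD s (pr X i) = C (∑ k, s (i, k)) * pr X i := by
  unfold pr
  rw [Fin.prod_univ_five, Fin.sum_univ_five]
  simp only [Derivation.leibniz, DD_X, smul_eq_mul, map_add]
  ring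

theorem DD_EE (s : Jx → ℂ) (ζ : ℂ) (j : Jx) : DD s (EE ζ j) =
    C (5 * s j) * X j ^ 5 + (C (∑ k, s (j.1 + 1, k)) * pr X (j.1 + 1) +
      C (ζ ^ (j.2 : ℕ)) * (C (∑ k, s (j.1 + 2, k)) * pr X (j.1 + 2))) := by
  unfold EE el
  rw [map_add, map_add, Derivation.leibniz_pow, Derivation.leibniz, DD_pr, DD_pr, DD_X,
    Derivation.map_algebraMap]
  simp only [smul_eq_mul, algebraMap_eq, map_mul, map_pow]
  rw [show (C (5 : ℂ) : MvPolynomial Jx ℂ) = 5 from map_ofNat _ 5]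
  simp only [nsmul_eq_mul]
  push_cast
  ring

theorem pf_LinB (hKer : StmtKer) : StmtLinB := by
  intro K _ _ ζ x hc l hl hlin
  have hζ := hc.prim
  have hL : ∀ j, ∃ L : Fin 3 → ℂ, l j = ∑ a, algebraMap ℂ K (L a) * pr x a :=
    fun j => mem_AA_one.1 (hl j)
  choose L hL using hL
  have hae : ∀ i, aeval (pr x) (TT ζ L i) = ∑ k, hat x (i, k) * l (i, k) := by
    intro i
    unfold TT
    rw [map_sum]
    refine Finset.sum_congr rfl fun k _ => ?_
    rw [map_mul, map_sum, hL (i, k), hat_eq hc]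
    unfold Hp el
    rw [map_prod]
    simp
  have hdvd : ∀ i, FF ∣ TT ζ L i - TT ζ L 0 := fun i =>
    (hKer K ζ x hc).1 _ (by rw [map_sub, hae, hae, hlin i, sub_self])
  obtain ⟨τ, hτ⟩ := TT_eq ζ L hdvd
  have hrel := fun i => coef_rel ζ hζ L τ hτ i
  refine ⟨fun j => (τ (j.1 + 1) / 5 - L j (j.1 + 1)) / 5, fun j => ?_⟩
  obtain ⟨i, k⟩ := j
  have hsum : ∀ a : Fin 3, ∑ k : Fin 5, (τ (a + 1) / 5 - L (a, k) (a + 1)) / 5 = τ a / 5 := by
    intro a
    rw [← Finset.sum_div, Finset.sum_sub_distrib, (hrel a).2.2]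
    simp
    ring
  rw [der_diagonal, DD_EE]
  simp only [hsum]
  have hpr : ∀ a, (aeval x : MvPolynomial Jx ℂ →ₐ[ℂ] K) (pr X a) = pr x a := by
    intro a
    unfold pr
    rw [map_prod]
    simp
  have h3 : l (i, k) = algebraMap ℂ K (L (i, k) (i + 1)) * pr x (i + 1) +
      algebraMap ℂ K (L (i, k) (i + 2)) * pr x (i + 2) := by
    rw [hL (i, k)]
    have h0 := (hrel i).1 k
    have hsum3 : ∀ f : Fin 3 → K, ∑ a, f a = f i + f (i + 1) + f (i + 2) := by
      intro f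
      rw [Fin.sum_univ_three]
      fin_cases i
      · rfl
      · show f 0 + f 1 + f 2 = f 1 + f (1 + 1) + f (1 + 2)
        rw [show (1 + 1 : Fin 3) = 2 from rfl, show (1 + 2 : Fin 3) = 0 from rfl]; ring
      · show f 0 + f 1 + f 2 = f 2 + f (2 + 1) + f (2 + 2)
        rw [show (2 + 1 : Fin 3) = 0 from rfl, show (2 + 2 : Fin 3) = 1 from rfl]; ring
    rw [hsum3, h0, map_zero, zero_mul, zero_add]
  have h4 : L (i, k) (i + 2) = ζ ^ (k : ℕ) * L (i, k) (i + 1) +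
      ζ ^ (k : ℕ) * (τ (i + 2) - τ (i + 1)) / 5 := by
    linear_combination (hrel i).2.1 k
  have h5 := pow_five hc (i, k)
  unfold el at h5
  rw [h3, h4]
  simp only [map_add, map_mul, map_pow, aeval_C, aeval_X, hpr, map_sub, map_div₀, map_ofNat] at h5 ⊢
  have : CharZero K := charZero_of_injective_algebraMap (algebraMap ℂ K).injective
  rw [h5]
  field_simp
  ring

end Pool.Agent.Helper11.Rig
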